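import Mathlib
import Pool.Agent.HX84.PI.Main7
import Pool.Agent.HX84.PI.Pairs

/-! Unramified period-index for classes of every period on a curve times a Jacobian of genus two times elliptic curves.

Let `C` be a curve and `D` a curve of genus `g = 2`, or a hyperelliptic curve of genus `g = 3`, over an algebraically
closed field `k`, `E_1, ..., E_r` elliptic curves, `K = k(C × J(D) × E_1 × ... × E_r)`, `L = k(C)`, and let `n` be
prime to the characteristic. Let `D` be the curve `y ^ 2 = (x - a_1) ... (x - a_(2 g + 1))`, `(d_u)` a basis of
`J(D)[n]` and `f_u` a function on `D` with divisor `n` times a divisor of class `d_u`. The values `z_u = f_u(P)` at the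
generic point `P` of `J(D)` (a divisor on `D` over `K`) generate `H^1(J(D), Z/n)`. If `(w_(uv) - w_(vu))` is an
integral lift of the inverse matrix of the Weil pairing then `∑ w_(uv) (z_u, z_v) = 0` for a suitable choice of `w`,
because this is the class of the theta divisor (theta relation); the relation at the points `P`, `R` and `P + R` gives
`∑ w_(uv) ((z_u, q_v) + (q_u, z_v)) = 0` for every point `R = (c, y)` of `D` over an extension of `K`, where
`q_u = f_u(R)` (translation relation). For `n` even one can choose the basis such that `(n / 2) d_u` is the class of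
`(a_u, 0) - ∞`; then `q_u` is `c - a_u` times a square, and the matrix of the Weil pairing and its inverse are, modulo
two, the matrix with zero diagonal and all other entries one. If `D` is defined over `L` with all `n`-torsion points
then the same holds, up to symbols with one entry in `L`, and then `K` is the function field of a family over `C`.

Proof. (1) A class is given by an alternating form `b` over `Z/n` on `(Z/n) ^ (2 g)`, modulo the form `Ω` of the
relation, and `2 g` elements of `L`. One can choose the multiple `b + c Ω` such that the elementary divisors are prime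
to `n`, with one exception at most: the last one is two times a number prime to `n`, and then the kernel of the form
modulo two is a plane on which the Weil pairing is not zero. (2) For a block with elementary divisor `t` prime to `n`
the linear part can be absorbed, and the block is one symbol of degree `n`. (3) In the exceptional case there is a
point `(c, y)` of `D` over an extension `K'` whose degree divides twice an odd number, with `c` algebraic over `L`,
such that translation by this point makes the linear part of the last block divisible by two (Tsen's theorem on a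
covering of the line; a conic for `g = 2`). Over `K'` the last block is a symbol of degree `n / 2`. So the index of the
class divides `2 o n ^ (g - 1) (n / 2) = o n ^ g` with `o` odd, and it divides a power of two times `n ^ g`.
(4) A pair `e_j, f_j` costs one symbol (`main_index` of the starting files). -/

set_option autoImplicit false
set_option linter.all false

namespace Pool.Agent.Results.MP_43d240_ag.AllPeriods

open Pool.Agent.Helper18.Br Pool.Agent.H552R3.SymBr Pool.Agent.H552R3.SymPred Pool.Agent.HX84.PI

universe u

/-- Let `k` be an algebraically closed field, `K` an extension field with a primitive `n`-th root of unity `ζ`, `L` an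
intermediate field of transcendence degree at most one over `k`, `a_1, ..., a_(2 g + 1)` distinct elements of `K` and
`D` the curve `y ^ 2 = (x - a_1) ... (x - a_(2 g + 1))`; suppose that `g = 2` and `a_i ∈ L`, or `g = 3`, `a_i ∈ k` and
`3 ∤ n`. Let `z_1, ..., z_(2 g)` be nonzero elements of `K` and `w` an integral matrix, such that the determinant of
`w - wᵗ` is prime to `n`, and all entries of `w - wᵗ` outside the diagonal are odd if `n` is even. Suppose that
(theta relation) `∑ w_(uv) (z_u, z_v)`, a sum of symbols of degree `n`, is a combination of symbols `(b, c)` with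
`b ∈ L` and `c ∈ L ∪ {z_1, ..., z_(2 g)}`; and, if `n` is even, that (translation relation) for every point `(c, y)` of
`D` over a finite extension `M` of `K`, with `c` algebraic over `L` and `c ≠ a_i`, there are nonzero elements `q_u` of
`M`, algebraic over `L`, such that `q_u` is `c - a_u` times a square and
`∑ w_(uv) ((z_u, q_v) + (q_u, z_v)) = 0` in `Br(M)`. Let `(e_j, f_j)`, `j < r`, be pairs of nonzero elements of `K`
such that `e_j, f_j` are algebraically dependent over `k` or satisfy a relation `c e_j + d f_j = 1` with `c, d ∈ L`
nonzero. Let `α` be a class in the subgroup of `Br(K)` generated by the symbols `(x, y)` of degree `n` with `x` and `y`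
in the group generated by `Lˣ`, the `z_u`, the `e_j` and the `f_j`. Then the index of `α` divides `n ^ (r + g)`. -/
theorem result {k K : Type u} [Field k] [IsAlgClosed k] [Field K] [Algebra k K] (n : ℕ) (hn : 0 < n)
    (ζ : K) (hζ : IsPrimitiveRoot ζ n) (L : IntermediateField k K) (hL : Algebra.trdeg k L ≤ 1)
    (g : ℕ) (a : Fin (2 * g + 1) → K) (ha : Function.Injective a)
    (hcase : (g = 2 ∧ ∀ i, a i ∈ L) ∨ (g = 3 ∧ ¬ 3 ∣ n ∧ ∀ i, a i ∈ Set.range (algebraMap k K)))
    (z : Fin (2 * g) → Kˣ) (w : Fin (2 * g) → Fin (2 * g) → ℤ)
    (hdet : IsCoprime (Matrix.of fun u v => w u v - w v u : Matrix (Fin (2 * g)) (Fin (2 * g)) ℤ).det (n : ℤ))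
    (hodd : 2 ∣ n → ∀ u v, u ≠ v → Odd (w u v - w v u))
    (θ : Fin (2 * g) → Fin (2 * g) → BrauerGroup.{u, u} K) (hθ : ∀ u v, IsSym n ζ (z u) (z v) (θ u v))
    (htheta : ∏ u, ∏ v, θ u v ^ w u v ∈ Subgroup.closure {γ | ∃ b c : Kˣ, (b : K) ∈ L ∧
      ((c : K) ∈ L ∨ c ∈ Set.range z) ∧ IsSym n ζ b c γ})
    (htrans : 2 ∣ n → ∀ (M : Type u) [Field M] [Algebra K M] [FiniteDimensional K M] (c y : M),
      IsAlgebraic L c → y ^ 2 = ∏ i, (c - algebraMap K M (a i)) → (∀ i, c ≠ algebraMap K M (a i)) →
      ∃ (q : Fin (2 * g) → Mˣ) (σ τ : Fin (2 * g) → Fin (2 * g) → BrauerGroup.{u, u} M),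
        (∀ u, IsAlgebraic L (q u : M)) ∧ (∀ u, ∃ t : M, (q u : M) = (c - algebraMap K M (a u.castSucc)) * t ^ 2) ∧
        (∀ u v, IsSym n (algebraMap K M ζ) (Units.map (algebraMap K M).toMonoidHom (z u)) (q v) (σ u v)) ∧
        (∀ u v, IsSym n (algebraMap K M ζ) (q u) (Units.map (algebraMap K M).toMonoidHom (z v)) (τ u v)) ∧
        ∏ u, ∏ v, (σ u v * τ u v) ^ w u v = 1)
    (r : ℕ) (e f : Fin r → Kˣ)
    (hef : ∀ j, ¬ AlgebraicIndependent k ![(e j : K), (f j : K)] ∨
      (∃ c ∈ L, ∃ d ∈ L, c ≠ 0 ∧ d ≠ 0 ∧ c * e j + d * f j = 1))
    (G : Subgroup Kˣ)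
    (hG : G = Subgroup.closure ({x : Kˣ | (x : K) ∈ L} ∪ Set.range z ∪ Set.range e ∪ Set.range f))
    (α : BrauerGroup.{u, u} K) (hα : α ∈ Subgroup.closure {γ | ∃ x ∈ G, ∃ y ∈ G, IsSym n ζ x y γ}) :
    IndDvd α (n ^ (r + g)) := by
  rw [pow_add]
  exact with_pairs (k := k) n hn ζ hζ L (Set.range z) (n ^ g) (pow_pos hn g)
    (fun β hβ => base_all n hn ζ hζ L hL g a ha hcase z w hdet hodd θ hθ htheta htrans _ rfl β hβ) r e f hef G hG α hα

end Pool.Agent.Results.MP_43d240_ag.AllPeriods
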