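import Mathlib
import Pool.Agent.H47PI.Cls
import Pool.Agent.Y109.PI.Sym

/-! Unramified period-index on abelian varieties: most classes. -/

set_option autoImplicit false
set_option linter.all false

open scoped TensorProduct

namespace Pool.Agent.Results.MP_43d240_ag.AlmostAllClasses

open Pool.Agent.Helper18.Br Pool.Agent.H552R3.SymBr Pool.Agent.H552R3.SymPred Pool.Agent.H552R3.Tsen
  Pool.Agent.Y109.PI Pool.Agent.H47PI

universe u

/-- The class `α` of the Brauer group of `K` is the sum of `g - 1` classes of symbol algebras of degree `n` (with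
respect to the root of unity `ζ`), and its index divides `n ^ (g - 1)`. -/
def Good {K : Type u} [Field K] (n : ℕ) (ζ : K) (g : ℕ) (α : BrauerGroup.{u, u} K) : Prop :=
  (∃ (s t : Fin (g - 1) → Kˣ) (σ : Fin (g - 1) → BrauerGroup.{u, u} K),
    (∀ i, IsSym n ζ (s i) (t i) (σ i)) ∧ α = ∏ i, σ i) ∧ IndDvd α (n ^ (g - 1))

/-- Let `K` be an extension of an algebraically closed field `k`, let `n` be a squarefree positive integer, let
`ζ ∈ K` be a primitive `n`-th root of unity, let `g ≥ 1` and let `z_1, ..., z_{2g}` be nonzero elements of `K`; let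
`θ(u,v)` be the class in the Brauer group of `K` of the symbol algebra `(z_u, z_v)` of degree `n`. Let `G` be the
subgroup of `Kˣ` generated by `kˣ` and the `z_u`, and let `B` be the subgroup of the Brauer group generated by the
symbols of degree `n` with both entries in `G`. Let `w_1, ..., w_ρ` be integral `2g × 2g` matrices such that
`∑ w_i(u,v) θ(u,v) = 0` in the Brauer group for all `i`, and such that for every prime divisor `p` of `n` the
alternating matrices `D_i = w_i - w_iᵀ` modulo `p` are linearly independent over `F_p` and some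
linear combination of them over `F_p` is nondegenerate.

Call a class `α` in `B` good if it is the sum of `g - 1` symbols of degree `n` and its index divides `n ^ (g - 1)`.
Then `B` is finite, and

(A) if `n > 1`, the proportion of the classes in `B` which are not good is less than
`∑_{p ∣ n} min (1 / 2, p ^ (1 - ρ) + (2 g + 4) / p ^ 2)`; in particular, if `n` is a prime, more than half of the classes
in `B` are good;

(B) if `ρ ≥ 3` and all prime divisors of `n` are greater than `P ≥ 1`, the proportion of the classes in `B` which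
are not good is at most `(2 g + 5) / P`.

For an abelian variety `A` of dimension `g` over `k` with function field `K` and `n` prime to the characteristic,
the classes of the divisor classes of order `n` give `z_1, ..., z_{2g}` with `B = Br(A)[n]`, and the first Chern
classes of `ρ` divisor classes which are independent modulo the prime divisors of `n`, one of them a polarization of
degree prime to `n`, give such relations. -/
theorem result {k K : Type u} [Field k] [IsAlgClosed k] [Field K] [Algebra k K] (n : ℕ) (hn : Squarefree n)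
    (ζ : K) (hζ : IsPrimitiveRoot ζ n) (g : ℕ) (hg : 0 < g) (z : Fin (2 * g) → Kˣ)
    (θ : Fin (2 * g) → Fin (2 * g) → BrauerGroup.{u, u} K) (hθ : ∀ u v, IsSym n ζ (z u) (z v) (θ u v))
    (G : Subgroup Kˣ) (hG : G = Subgroup.closure (Set.range (Units.map (algebraMap k K).toMonoidHom) ∪ Set.range z))
    (B : Subgroup (BrauerGroup.{u, u} K))
    (hB : B = Subgroup.closure {γ | ∃ a ∈ G, ∃ b ∈ G, IsSym n ζ a b γ})
    (ρ : ℕ) (w : Fin ρ → Fin (2 * g) → Fin (2 * g) → ℤ) (hrel : ∀ i, ∏ u, ∏ v, θ u v ^ w i u v = 1)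
    (D : ∀ p : ℕ, Fin ρ → Matrix (Fin (2 * g)) (Fin (2 * g)) (ZMod p))
    (hD : ∀ p i u v, D p i u v = ((w i u v - w i v u : ℤ) : ZMod p))
    (hlin : ∀ p : ℕ, p.Prime → p ∣ n → LinearIndependent (ZMod p) (D p))
    (hnd : ∀ p : ℕ, p.Prime → p ∣ n → ∃ c : Fin ρ → ZMod p, (∑ i, c i • D p i).det ≠ 0) :
    Finite B ∧
    (1 < n → (Nat.card {α : BrauerGroup.{u, u} K // α ∈ B ∧ ¬ Good n ζ g α} : ℝ) <
      (∑ p ∈ n.primeFactors, min (1 / 2) ((p : ℝ) / (p : ℝ) ^ ρ + (2 * g + 4) / (p : ℝ) ^ 2)) * Nat.card B) ∧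
    (3 ≤ ρ → ∀ P : ℕ, 0 < P → (∀ p : ℕ, p.Prime → p ∣ n → P < p) →
      (Nat.card {α : BrauerGroup.{u, u} K // α ∈ B ∧ ¬ Good n ζ g α} : ℝ) ≤ (2 * g + 5) / (P : ℝ) * Nat.card B) := by
  have hn0 : 0 < n := Nat.pos_of_ne_zero hn.ne_zero
  have hDe : ∀ p, D p = fun i => red p (dif (w i)) := by
    intro p
    funext i
    ext u v
    rw [hD]
    rfl
  have hQ : ∀ i, Q (symHom hn0 hζ) z (w i) = 1 := by
    intro i
    rw [← hrel i, Q, Fintype.prod_prod_type]
    refine Finset.prod_congr rfl fun u _ => Finset.prod_congr rfl fun v _ => ?_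
    rw [(isSym_iff hn0 hζ (z u) (z v) (θ u v)).1 (hθ u v), symHom_apply]
  let H : Subgroup Kˣ := (Units.map (algebraMap k K).toMonoidHom).range
  have hneg : (-1 : Kˣ) ∈ H := by
    refine ⟨-1, ?_⟩
    ext
    simp
  have hconst : ∀ a ∈ H, ∀ b, symHom hn0 hζ a b = 1 := by
    rintro _ ⟨c, rfl⟩ b
    obtain ⟨d, hd⟩ := IsAlgClosed.exists_pow_nat_eq (c : k) hn0
    have hd0 : d ≠ 0 := by
      rintro rfl
      rw [zero_pow hn0.ne'] at hd
      exact c.ne_zero hd.symm
    have hc : c = (Units.mk0 d hd0) ^ n := by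
      ext
      rw [Units.val_pow_eq_pow_val, Units.val_mk0, hd]
    rw [hc, map_pow, map_pow, MonoidHom.pow_apply, symHom_apply, symCl_tors]
  have hGH : G = H ⊔ Subgroup.closure (Set.range z) := by
    rw [hG, Subgroup.closure_union]
    congr 1
    exact Subgroup.closure_eq H
  have hB' : B = Subgroup.closure {γ | ∃ a ∈ H ⊔ Subgroup.closure (Set.range z),
      ∃ b ∈ H ⊔ Subgroup.closure (Set.range z), γ = symHom hn0 hζ a b} := by
    rw [hB]
    congr 1
    ext γ
    simp only [Set.mem_setOf_eq, isSym_iff hn0 hζ, hGH, symHom_apply]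
  obtain ⟨hfin, hmain⟩ := abs_count (s := symHom hn0 hζ) (fun a b => symCl_anti hn0 hζ a b) n hn
    (fun a b => symCl_tors hn0 hζ a b) (-1) H hneg (fun a => symCl_diag hn0 hζ a) hconst g hg z w hQ B hB'
    (Good n ζ g) (fun x y => ⟨⟨x, y, fun i => symCl hn0 hζ (x i) (y i), fun i => (isSym_iff hn0 hζ _ _ _).2 rfl, rfl⟩,
      (hasRep_prod hn0 hζ (g - 1) x y).indDvd⟩)
  have hBpos : (0 : ℝ) < Nat.card B := by exact_mod_cast Nat.card_pos
  have hbound : ∀ p ∈ n.primeFactors, β w p < min (1 / 2) ((p : ℝ) / (p : ℝ) ^ ρ + (2 * g + 4) / (p : ℝ) ^ 2) := by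
    intro p hp
    obtain ⟨hp, hpn, _⟩ := Nat.mem_primeFactors.1 hp
    haveI : Fact p.Prime := ⟨hp⟩
    obtain ⟨c0, h0⟩ := hnd p hp hpn
    have h1 := hlin p hp hpn
    rw [hDe] at h0 h1
    exact lt_min (β_half g hg w c0 h0) (β_almost g hg w h1 c0 h0)
  refine ⟨hfin, fun hn1 => ?_, ?_⟩
  · refine hmain.trans_lt (mul_lt_mul_of_pos_right (Finset.sum_lt_sum_of_nonempty ?_ hbound) hBpos)
    exact Nat.nonempty_primeFactors.2 hn1
  · intro hρ P hP hall
    refine hmain.trans (mul_le_mul_of_nonneg_right ?_ hBpos.le)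
    have hP0 : (0 : ℝ) < P := by exact_mod_cast hP
    have e1 : ∀ p ∈ n.primeFactors, β w p ≤ (2 * g + 5) * ((p : ℝ) ^ 2)⁻¹ := by
      intro p hp
      refine ((hbound p hp).le.trans (min_le_right _ _)).trans ?_
      obtain ⟨hp, hpn, _⟩ := Nat.mem_primeFactors.1 hp
      have hp1 : (1 : ℝ) ≤ p := by exact_mod_cast hp.one_le
      have hp0 : (0 : ℝ) < p := by linarith
      have e2 : (p : ℝ) / (p : ℝ) ^ ρ ≤ ((p : ℝ) ^ 2)⁻¹ := by
        rw [← one_div, div_le_div_iff₀ (by positivity) (by positivity), one_mul]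
        calc (p : ℝ) * (p : ℝ) ^ 2 = (p : ℝ) ^ 3 := by ring
          _ ≤ (p : ℝ) ^ ρ := pow_le_pow_right₀ hp1 hρ
      have e3 : (2 * g + 4) / (p : ℝ) ^ 2 = (2 * g + 4) * ((p : ℝ) ^ 2)⁻¹ := by rw [div_eq_mul_inv]
      rw [e3]
      linarith
    have e4 : n.primeFactors ⊆ Finset.Ioc P (max P n) := by
      intro p hp
      obtain ⟨hp, hpn, _⟩ := Nat.mem_primeFactors.1 hp
      exact Finset.mem_Ioc.2 ⟨hall p hp hpn, (Nat.le_of_dvd hn0 hpn).trans (le_max_right _ _)⟩
    have e5 := sum_Ioc_inv_sq_le_sub (α := ℝ) hP.ne' (le_max_left P n)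
    calc ∑ p ∈ n.primeFactors, β w p
        ≤ ∑ p ∈ n.primeFactors, (2 * g + 5) * ((p : ℝ) ^ 2)⁻¹ := Finset.sum_le_sum e1
      _ ≤ ∑ p ∈ Finset.Ioc P (max P n), (2 * g + 5) * ((p : ℝ) ^ 2)⁻¹ :=
          Finset.sum_le_sum_of_subset_of_nonneg e4 fun p _ _ => by positivity
      _ = (2 * g + 5) * ∑ p ∈ Finset.Ioc P (max P n), ((p : ℝ) ^ 2)⁻¹ := by rw [Finset.mul_sum]
      _ ≤ (2 * g + 5) * ((P : ℝ)⁻¹ - ((max P n : ℕ) : ℝ)⁻¹) := by gcongr
      _ ≤ (2 * g + 5) * (P : ℝ)⁻¹ := by
          have : (0 : ℝ) ≤ ((max P n : ℕ) : ℝ)⁻¹ := by positivity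
          gcongr
          linarith
      _ = (2 * g + 5) / (P : ℝ) := by rw [div_eq_mul_inv]

end Pool.Agent.Results.MP_43d240_ag.AlmostAllClasses
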