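import Mathlib
import Pool.Agent.HX84.PI.BaseFib
import Pool.Agent.HX84.PI.Pairs

/-! Unramified period-index for classes of period two on families of abelian varieties over a curve.

Let `L` be the function field of a curve over an algebraically closed field `k` of characteristic not two, let `D` be
the hyperelliptic curve `y ^ 2 = (x - a_1) ... (x - a_(2 g + 1))` over `L`, with all `a_i` in `L` (every twist of this
curve is of the same form), let `E_1, ..., E_r` be elliptic curves over `L` with rational 2-torsion, and let `K` be the
function field of `J(D) × E_1 × ... × E_r`. The generic point of `J(D)` is, in Mumford's form, a pair `(U, Y)`. The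
square classes of `z_i = U(a_i)` generate `H^1` of `J(D)` over the algebraic closure of `L`, with coefficients `Z/2`,
and those of `e_j = x_j - b_j`, `f_j = x_j - c_j` generate that of `E_j`, the curve
`y_j ^ 2 = (x_j - b_j) (x_j - c_j) (x_j - d_j)`; here `(e_j - f_j) / (c_j - b_j) = 1`. The classes in
`Br(J(D) × E_1 × ... × E_r)` killed by two are sums of quaternion algebras with entries in the group generated by `Lˣ`,
the `z_i`, the `e_j` and the `f_j`. In particular this holds for the classes of period two in `Br(X)`, `X` a smooth
projective variety of dimension `1 + g + r` with a morphism to a curve with generic fibre `J(D) × E_1 × ... × E_r`.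

Proof. The diagonal form with coefficients `z_i / f'(a_i)`, `f = (x - a_1) ... (x - a_(2 g + 1))`, has a totally
isotropic subspace of dimension `g`. Therefore `∑_(i < j) (z_i, z_j) = ∑_i (z_i, f'(a_i))`, and
`∑_i (z_i, c - a_i) = 0` for every point `(c, y)` of `D` over an extension of `K`. The first relation gives the bound
for all `g`, by linear algebra over `F_2`. If `g = 2` and if this bound is not `4`, then the class is given by an
alternating form whose kernel is a hyperbolic plane `{0, m, m', m + m'}` for the Weil pairing. The three nonzero
elements of such a plane are of the form `(P) - (Q), (Q) - (R), (P) - (R)` with three branch points `P, Q, R`, and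
the condition that the square classes of a point `(c, y)` cancel those of `h(m), h(m')` is a conic over `L` for `c`,
which has points with `c` in `L`; then `y` is in a quadratic extension `K'`, and over `K'` the class is a
quaternion algebra. A pair `e_j, f_j` costs one symbol (`main_index` of the starting files). -/

set_option autoImplicit false
set_option linter.all false

namespace Pool.Agent.Results.MP_43d240_ag.HyperellipticFibrations

open Polynomial Pool.Agent.Helper18.Br Pool.Agent.H552R3.SymBr Pool.Agent.H552R3.SymPred Pool.Agent.HX84.PI

universe u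

/-- Let `k` be an algebraically closed field of characteristic not two, `K` an extension field, `L` an
intermediate field of transcendence degree at most one over `k`, and `D` the hyperelliptic curve
`y ^ 2 = (x - a_1) ... (x - a_(2 g + 1))` of genus `g ≥ 2` over `L`, with `a_i` in `L`. Let `P` be an effective divisor
of degree at most `g` on `D` over `K` in Mumford's form: a monic polynomial `U` over `K` of degree at most `g` and a
polynomial `Y` such that `U` divides `Y ^ 2 - (x - a_1) ... (x - a_(2 g + 1))`; suppose that the values
`z_i = U(a_i)` are not zero. Let `(e_j, f_j)`, `j < r`, be pairs of nonzero elements of `K` such that `e_j, f_j` are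
algebraically dependent over `k` or satisfy a relation `c e_j + d f_j = 1` with `c, d ∈ L` nonzero. Let `α` be a class
in the subgroup of `Br(K)` generated by the classes of the quaternion algebras `(x, y)` with `x` and `y` in the group
generated by `Lˣ`, the `z_i`, the `e_j` and the `f_j`. Then the index of `α` divides `2 ^ (r + (g + ⌊g / 2⌋))`, and it
divides `2 ^ (r + 2)` if `g = 2`. -/
theorem result {k K : Type u} [Field k] [IsAlgClosed k] (h2 : (2 : k) ≠ 0) [Field K] [Algebra k K]
    (L : IntermediateField k K) (hL : Algebra.trdeg k L ≤ 1) (g : ℕ) (hg : 2 ≤ g) (a : Fin (2 * g + 1) → K)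
    (ha : Function.Injective a) (haL : ∀ i, a i ∈ L) (U Y : K[X]) (hU : U.Monic) (hdeg : U.natDegree ≤ g)
    (hdvd : U ∣ Y ^ 2 - ∏ i, (X - C (a i)))
    (z : Fin (2 * g + 1) → Kˣ) (hz : ∀ i, (z i : K) = U.eval (a i))
    (r : ℕ) (e f : Fin r → Kˣ)
    (hef : ∀ j, ¬ AlgebraicIndependent k ![(e j : K), (f j : K)] ∨
      (∃ c ∈ L, ∃ d ∈ L, c ≠ 0 ∧ d ≠ 0 ∧ c * e j + d * f j = 1))
    (G : Subgroup Kˣ)
    (hG : G = Subgroup.closure ({x : Kˣ | (x : K) ∈ L} ∪ Set.range z ∪ Set.range e ∪ Set.range f))
    (α : BrauerGroup.{u, u} K) (hα : α ∈ Subgroup.closure {γ | ∃ x ∈ G, ∃ y ∈ G, IsSym 2 (-1) x y γ}) :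
    IndDvd α (2 ^ (r + (g + g / 2))) ∧ (g = 2 → IndDvd α (2 ^ (r + 2))) := by
  have hζ : IsPrimitiveRoot (-1 : K) 2 := IsPrimitiveRoot.neg_one (ringChar K) (by
    intro h0
    apply h2
    have h1 := ringChar.Nat.cast_ringChar (R := K)
    rw [h0] at h1
    apply (algebraMap k K).injective
    rw [map_ofNat, map_zero]
    exact_mod_cast h1)
  refine ⟨?_, fun hg2 => ?_⟩
  · have h := with_pairs (k := k) 2 two_pos (-1 : K) hζ L (Set.range z) (2 ^ (g + g / 2)) (by positivity)
      (fun β hβ => (base_fib h2 L hL g hg a ha haL U Y hU hdeg hdvd z hz _ rfl β hβ).1) r e f hef G hG α hα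
    rwa [← pow_add] at h
  · have h := with_pairs (k := k) 2 two_pos (-1 : K) hζ L (Set.range z) 4 (by norm_num)
      (fun β hβ => (base_fib h2 L hL g hg a ha haL U Y hU hdeg hdvd z hz _ rfl β hβ).2 hg2) r e f hef G hG α hα
    have e1 : (2 : ℕ) ^ (r + 2) = 2 ^ r * 4 := by rw [pow_add]; norm_num
    rwa [e1]

end Pool.Agent.Results.MP_43d240_ag.HyperellipticFibrations
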