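import Mathlib
import Pool.Agent.HX84.PI.BaseTwo
import Pool.Agent.HX84.PI.Pairs

/-! Unramified period-index for classes of period two on a curve times a hyperelliptic Jacobian times elliptic curves.

Let `C` be a curve and `D` a hyperelliptic curve of genus `g` over an algebraically closed field `k` of characteristic
not two, `E_1, ..., E_r` elliptic curves, `K = k(C × J(D) × E_1 × ... × E_r)`, `L = k(C)`. The generic point of `J(D)`
is a `K`-point of the `g`-th symmetric power of `D`; in Mumford's form it is `(U, Y)`. The square classes of
`z_i = U(a_i)` generate `H^1(J(D), Z/2)`, and those of `e_j = x_j - b_j`, `f_j = x_j - c_j` generate `H^1(E_j, Z/2)`,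
`E_j` the curve `y_j ^ 2 = (x_j - b_j) (x_j - c_j) (x_j - d_j)`; so the classes in `Br(C × J(D) × E_1 × ... × E_r)`
killed by two are sums of quaternion algebras with entries in the group generated by `Lˣ`, the `z_i`, the `e_j` and
the `f_j`. (The curves `E_j` may be defined over `L`, and then one has the generic fibre of a family over `C`.)

Proof. (1) The diagonal form with coefficients `z_i` has a totally isotropic subspace of dimension `g`, as
interpolation (Euler's identities) shows; hence `∑_(i < j) (z_i, z_j) = 0`, and `∑_i (z_i, c - a_i) = 0` for every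
point `(c, y)` of `D` over an extension of `K`. (2) With `V = F_2 ^ (2 g)` and the Weil form `ω` of the polarisation a
class is given by an alternating form `b` on `V`, modulo `ω`, and a homomorphism `h` from `V` to `Lˣ` modulo squares;
it is a sum of `2 g - r` symbols, `2 r` the rank of `b`. (3) The kernels of `b` and `b + ω` are disjoint and
orthogonal for `ω`. Therefore for `b` or `b + ω` the kernel has dimension at most `2 ⌊g / 2⌋ - 2`, or it has dimension
at most `2 ⌊g / 2⌋` and contains `m, m'` with `ω(m, m') = 1`. (4) In the last case there is a point `(c, y)` of `D`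
over an extension `K'` of degree dividing twice an odd number, with `c` algebraic over `L`, whose square classes
cancel `h(m)` and `h(m')`: the covering of the line given by the subsets of the branch points which belong to `m` and
`m'` has holomorphic Euler characteristic of the parity of `ω(m, m')`, and Tsen's theorem, used twice, gives a point
of odd degree on its twist by `h(m), h(m')`. Over `K'` the class is a sum of `2 g - 2 - r` symbols. (5) A pair
`e_j, f_j` costs one symbol (`main_index` of the starting files). -/

set_option autoImplicit false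
set_option linter.all false

namespace Pool.Agent.Results.MP_43d240_ag.HyperellipticTwo

open Polynomial Pool.Agent.Helper18.Br Pool.Agent.H552R3.SymBr Pool.Agent.H552R3.SymPred Pool.Agent.HX84.PI

universe u

/-- Let `k` be an algebraically closed field of characteristic not two, `K` an extension field, `L` an
intermediate field of transcendence degree at most one over `k`, and `D` the hyperelliptic curve
`y ^ 2 = (x - a_1) ... (x - a_(2 g + 1))` of genus `g ≥ 2` over `k`. Let `P` be an effective divisor of degree at
most `g` on `D` over `K` in Mumford's form: a monic polynomial `U` over `K` of degree at most `g` and a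
polynomial `Y` such that `U` divides `Y ^ 2 - (x - a_1) ... (x - a_(2 g + 1))`; suppose that the values
`z_i = U(a_i)` are not zero. Let `(e_j, f_j)`, `j < r`, be pairs of nonzero elements of `K` such that `e_j, f_j` are
algebraically dependent over `k` or satisfy a relation `c e_j + d f_j = 1` with `c, d ∈ L` nonzero. Let `α` be a class
in the subgroup of `Br(K)` generated by the classes of the quaternion algebras `(x, y)` with `x` and `y` in the group
generated by `Lˣ`, the `z_i`, the `e_j` and the `f_j`. Then the index of `α` divides `2 ^ (r + (g + ⌊g / 2⌋ - 1))`;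
in particular it divides `2 ^ (r + g)` if `g` is two or three. -/
theorem result {k K : Type u} [Field k] [IsAlgClosed k] (h2 : (2 : k) ≠ 0) [Field K] [Algebra k K]
    (L : IntermediateField k K) (hL : Algebra.trdeg k L ≤ 1) (g : ℕ) (hg : 2 ≤ g) (a : Fin (2 * g + 1) → k)
    (ha : Function.Injective a) (U Y : K[X]) (hU : U.Monic) (hdeg : U.natDegree ≤ g)
    (hdvd : U ∣ Y ^ 2 - ∏ i, (X - C (algebraMap k K (a i))))
    (z : Fin (2 * g + 1) → Kˣ) (hz : ∀ i, (z i : K) = U.eval (algebraMap k K (a i)))
    (r : ℕ) (e f : Fin r → Kˣ)
    (hef : ∀ j, ¬ AlgebraicIndependent k ![(e j : K), (f j : K)] ∨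
      (∃ c ∈ L, ∃ d ∈ L, c ≠ 0 ∧ d ≠ 0 ∧ c * e j + d * f j = 1))
    (G : Subgroup Kˣ)
    (hG : G = Subgroup.closure ({x : Kˣ | (x : K) ∈ L} ∪ Set.range z ∪ Set.range e ∪ Set.range f))
    (α : BrauerGroup.{u, u} K) (hα : α ∈ Subgroup.closure {γ | ∃ x ∈ G, ∃ y ∈ G, IsSym 2 (-1) x y γ}) :
    IndDvd α (2 ^ (r + (g + g / 2 - 1))) ∧ (g ≤ 3 → IndDvd α (2 ^ (r + g))) := by
  have hζ : IsPrimitiveRoot (-1 : K) 2 := IsPrimitiveRoot.neg_one (ringChar K) (by
    intro h0
    apply h2
    have h1 := ringChar.Nat.cast_ringChar (R := K)
    rw [h0] at h1
    apply (algebraMap k K).injective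
    rw [map_ofNat, map_zero]
    exact_mod_cast h1)
  have h := with_pairs (k := k) 2 two_pos (-1 : K) hζ L (Set.range z) (2 ^ (g + g / 2 - 1)) (by positivity)
    (fun β hβ => (base_two h2 L hL g hg a ha U Y hU hdeg hdvd z hz _ rfl β hβ).1) r e f hef G hG α hα
  rw [← pow_add] at h
  refine ⟨h, fun h3 => ?_⟩
  have e1 : g + g / 2 - 1 = g := by omega
  rwa [e1] at h

end Pool.Agent.Results.MP_43d240_ag.HyperellipticTwo
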